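import Mathlib

namespace Pool.Agent.H.MP_f0f681_an
open Filter Topology InnerProductSpace

structure URep (G : Type) [Group G] where
  V : Type
  [n : NormedAddCommGroup V]
  [i : InnerProductSpace ℂ V]
  [c : CompleteSpace V]
  π : G →* (V ≃ₗᵢ[ℂ] V)

instance {G : Type} [Group G] (ρ : URep G) : NormedAddCommGroup ρ.V := ρ.n
instance {G : Type} [Group G] (ρ : URep G) : InnerProductSpace ℂ ρ.V := ρ.i
instance {G : Type} [Group G] (ρ : URep G) : CompleteSpace ρ.V := ρ.c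

def coef {G : Type} [Group G] (ρ : URep G) (ξ η : ρ.V) : G → ℂ :=
  fun g => @inner ℂ ρ.V InnerProductSpace.toInner η (ρ.π g ξ)

def BG (G : Type) [Group G] : Set (G → ℂ) := {f | ∃ (ρ : URep G) (ξ η : ρ.V), f = coef ρ ξ η}

noncomputable def op {G : Type} [Group G] (ρ : URep G) (a : G →₀ ℂ) : ρ.V →L[ℂ] ρ.V :=
  a.sum fun g c => c • (ρ.π g).toLinearIsometry.toContinuousLinearMap

noncomputable def cnorm {G : Type} [Group G] (a : G →₀ ℂ) : ℝ :=
  sSup {t | ∃ ρ : URep G, t = ‖op ρ a‖}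

def IsCauchy {G : Type} [Group G] (a : ℕ → G →₀ ℂ) : Prop :=
  ∀ ε > 0, ∃ N, ∀ m ≥ N, ∀ n ≥ N, cnorm (a m - a n) < ε

noncomputable def pair {G : Type} (a : G →₀ ℂ) (f : G → ℂ) : ℂ := a.sum fun g c => c * f g

noncomputable def dual {G : Type} (a : ℕ → G →₀ ℂ) (f : G → ℂ) : ℂ :=
  limUnder atTop fun n => pair (a n) f

@[reducible] noncomputable def weakStar (G : Type) [Group G] : TopologicalSpace (BG G) :=
  ⨅ a : {a : ℕ → G →₀ ℂ // IsCauchy a},
    TopologicalSpace.induced (fun f : BG G => dual a.1 f.1) inferInstance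

end Pool.Agent.H.MP_f0f681_an
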