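import Mathlib
import Pool.Agent.H.MP_f0f681_an.Defs

namespace Pool.Agent.H.MP_f0f681_an
open Filter Topology InnerProductSpace TensorProduct UniformSpace

attribute [-instance] CStarModule.toInner

variable {G : Type} [Group G]

noncomputable def L (ρ : URep G) (g : G) : ρ.V →L[ℂ] ρ.V :=
  (ρ.π g).toLinearIsometry.toContinuousLinearMap

@[simp] lemma L_apply (ρ : URep G) (g : G) (v : ρ.V) : L ρ g v = ρ.π g v := rfl

lemma π_mul (ρ : URep G) (g h : G) (v : ρ.V) : ρ.π (g * h) v = ρ.π g (ρ.π h v) := by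
  rw [map_mul]; rfl

lemma π_inner (ρ : URep G) (g : G) (v w : ρ.V) : ⟪v, ρ.π g w⟫_ℂ = ⟪ρ.π g⁻¹ v, w⟫_ℂ := by
  rw [← (ρ.π g).inner_map_map (ρ.π g⁻¹ v), ← π_mul, mul_inv_cancel, map_one]; rfl

noncomputable def mkRep (H : Type) [NormedAddCommGroup H] [InnerProductSpace ℂ H] [CompleteSpace H]
    (l : G → H →ₗ[ℂ] H) (h1 : ∀ v, l 1 v = v) (hm : ∀ g h v, l (g * h) v = l g (l h v))
    (hn : ∀ g v, ‖l g v‖ = ‖v‖) : URep G where
  V := H
  π := MonoidHom.mk' (fun g =>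
    { toLinearEquiv := LinearEquiv.ofLinearMap (l g) (l g⁻¹) (by ext v; simp [← hm, h1])
        (by ext v; simp [← hm, h1])
      norm_map' := hn g }) fun g h => by ext v; exact hm g h v

lemma tens (ρ σ : URep G) : ∃ (τ : URep G) (t : ρ.V → σ.V → τ.V),
    (∀ g x y, τ.π g (t x y) = t (ρ.π g x) (σ.π g y)) ∧
    (∀ x x' y y', ⟪t x y, t x' y'⟫_ℂ = ⟪x, x'⟫_ℂ * ⟪y, y'⟫_ℂ) ∧
    (∀ (a b : ℂ) x y, t (a • x) (b • y) = (a * b) • t x y) ∧ ∀ x y, ‖t x y‖ = ‖x‖ * ‖y‖ := by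
  let l : G → (ρ.V ⊗[ℂ] σ.V) →L[ℂ] (ρ.V ⊗[ℂ] σ.V) := fun g =>
    (mapIsometry (ρ.π g).toLinearIsometry (σ.π g).toLinearIsometry).toContinuousLinearMap
  have l1 : ∀ v, l 1 v = v := by
    intro v
    induction v with
    | zero => simp
    | tmul x y => simp [l]
    | add x y h1 h2 => rw [map_add, h1, h2]
  have lm : ∀ g h v, l (g * h) v = l g (l h v) := by
    intro g h v
    induction v with
    | zero => simp
    | tmul x y => simp [l]
    | add x y h1 h2 => simp only [map_add, h1, h2]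
  have ln : ∀ g v, ‖l g v‖ = ‖v‖ := fun g v => LinearIsometry.norm_map _ v
  refine ⟨mkRep (Completion (ρ.V ⊗[ℂ] σ.V)) (fun g => (l g).completion.toLinearMap) ?_ ?_ ?_,
    fun x y => ((x ⊗ₜ[ℂ] y : ρ.V ⊗[ℂ] σ.V) : Completion (ρ.V ⊗[ℂ] σ.V)), ?_, ?_, ?_, ?_⟩
  · intro v
    induction v using Completion.induction_on with
    | hp => exact isClosed_eq (l 1).completion.continuous continuous_id
    | ih v => simp [l1]
  · intro g h v
    induction v using Completion.induction_on with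
    | hp => exact isClosed_eq (l _).completion.continuous
              ((l g).completion.continuous.comp (l h).completion.continuous)
    | ih v => simp [lm]
  · intro g v
    induction v using Completion.induction_on with
    | hp => exact isClosed_eq (l g).completion.continuous.norm continuous_norm
    | ih v => simp [ln]
  · intro g x y
    show (l g).completion _ = _
    simp [l]
  · intro x x' y y'
    exact (Completion.inner_coe _ _).trans (inner_tmul ℂ _ _ _ _)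
  · intro a b x y
    show ((_ : ρ.V ⊗[ℂ] σ.V) : Completion (ρ.V ⊗[ℂ] σ.V)) = (a * b) • ((_ : ρ.V ⊗[ℂ] σ.V) :
      Completion (ρ.V ⊗[ℂ] σ.V))
    rw [← Completion.coe_smul, smul_tmul_smul]
  · intro x y
    exact (Completion.norm_coe _).trans (norm_tmul _ _)

noncomputable def chr (χ : G → ℂ) (h1 : χ 1 = 1) (hm : ∀ g h, χ (g * h) = χ g * χ h)
    (hn : ∀ g, ‖χ g‖ = 1) : URep G :=
  mkRep ℂ (fun g => χ g • LinearMap.id) (by simp [h1]) (by simp [hm, mul_assoc]) (by simp [hn])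

noncomputable def triv (G : Type) [Group G] : URep G := chr (fun _ => 1) rfl (by simp) (by simp)

lemma one_eq : (1 : G → ℂ) = coef (triv G) (1 : ℂ) (1 : ℂ) := by
  funext g
  show (1 : ℂ) = ⟪(1 : ℂ), ((1 : ℂ) • LinearMap.id (R := ℂ) (M := ℂ)) 1⟫_ℂ
  simp

lemma BG_add {f h : G → ℂ} (hf : f ∈ BG G) (hh : h ∈ BG G) : f + h ∈ BG G := by
  obtain ⟨ρ, ξ, η, rfl⟩ := hf
  obtain ⟨σ, ξ', η', rfl⟩ := hh
  refine ⟨mkRep (WithLp 2 (ρ.V × σ.V))
    (fun g => (LinearIsometryEquiv.withLpProdCongr 2 (ρ.π g) (σ.π g)).toLinearEquiv.toLinearMap)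
    (fun v => by simp; rfl) (fun g h v => by simp) (fun g v => LinearIsometryEquiv.norm_map _ v),
    WithLp.toLp 2 (ξ, ξ'), WithLp.toLp 2 (η, η'), ?_⟩
  funext g
  exact (WithLp.prod_inner_apply (WithLp.toLp 2 (η, η')) (WithLp.toLp 2 (ρ.π g ξ, σ.π g ξ'))).symm

lemma BG_smul (a : ℂ) {f : G → ℂ} (hf : f ∈ BG G) : a • f ∈ BG G := by
  obtain ⟨ρ, ξ, η, rfl⟩ := hf
  exact ⟨ρ, a • ξ, η, by funext g; simp [coef, inner_smul_right]⟩

lemma pair_coef (a : G →₀ ℂ) (ρ : URep G) (ξ η : ρ.V) :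
    pair a (coef ρ ξ η) = ⟪η, op ρ a ξ⟫_ℂ := by
  simp [pair, op, coef, Finsupp.sum, inner_sum, inner_smul_right]

lemma op_le (ρ : URep G) (a : G →₀ ℂ) : ‖op ρ a‖ ≤ cnorm a := by
  refine le_csSup ⟨∑ g ∈ a.support, ‖a g‖, ?_⟩ ⟨ρ, rfl⟩
  rintro _ ⟨σ, rfl⟩
  refine norm_sum_le_of_le _ fun g _ => ?_
  rw [norm_smul]
  exact mul_le_of_le_one_right (norm_nonneg _) (LinearIsometry.norm_toContinuousLinearMap_le _)

lemma cnorm_le {a : G →₀ ℂ} {C : ℝ} (h : ∀ ρ : URep G, ‖op ρ a‖ ≤ C) : cnorm a ≤ C :=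
  csSup_le ⟨_, triv G, rfl⟩ (by rintro _ ⟨ρ, rfl⟩; exact h ρ)

lemma cnorm_nonneg (a : G →₀ ℂ) : 0 ≤ cnorm a := (norm_nonneg _).trans (op_le (triv G) a)

lemma pair_le (a : G →₀ ℂ) (ρ : URep G) (ξ η : ρ.V) :
    ‖pair a (coef ρ ξ η)‖ ≤ cnorm a * (‖ξ‖ * ‖η‖) := by
  rw [pair_coef]
  calc _ ≤ ‖η‖ * ‖op ρ a ξ‖ := norm_inner_le_norm _ _
    _ ≤ ‖η‖ * (cnorm a * ‖ξ‖) := by gcongr; exact (op ρ a).le_of_opNorm_le (op_le ρ a) ξ
    _ = _ := by ring

omit [Group G] in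
lemma pair_sub (a b : G →₀ ℂ) (f : G → ℂ) : pair (a - b) f = pair a f - pair b f :=
  Finsupp.sum_sub_index fun _ _ _ => sub_mul _ _ _

lemma tend {a : ℕ → G →₀ ℂ} (ha : IsCauchy a) {f : G → ℂ} (hf : f ∈ BG G) :
    Tendsto (fun n => pair (a n) f) atTop (𝓝 (dual a f)) := by
  obtain ⟨ρ, ξ, η, rfl⟩ := hf
  refine CauchySeq.tendsto_limUnder (Metric.cauchySeq_iff.2 fun ε hε => ?_)
  obtain ⟨N, hN⟩ := ha (ε / (‖ξ‖ * ‖η‖ + 1)) (by positivity)
  refine ⟨N, fun m hm n hn => ?_⟩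
  have h1 := hN m hm n hn
  rw [lt_div_iff₀ (by positivity)] at h1
  rw [dist_eq_norm, ← pair_sub]
  have := cnorm_nonneg (a m - a n)
  linarith [pair_le (a m - a n) ρ ξ η]

lemma dual_add {a : ℕ → G →₀ ℂ} (ha : IsCauchy a) {f h : G → ℂ} (hf : f ∈ BG G) (hh : h ∈ BG G) :
    dual a (f + h) = dual a f + dual a h :=
  tendsto_nhds_unique (tend ha (BG_add hf hh)) (((tend ha hf).add (tend ha hh)).congr fun n => by
    simp [pair, mul_add, Finsupp.sum_add])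

lemma dual_smul {a : ℕ → G →₀ ℂ} (ha : IsCauchy a) (c : ℂ) {f : G → ℂ} (hf : f ∈ BG G) :
    dual a (c • f) = c * dual a f :=
  tendsto_nhds_unique (tend ha (BG_smul c hf)) (((tend ha hf).const_mul c).congr fun n => by
    simp [pair, Finsupp.mul_sum, mul_left_comm])

def Cl (S : Set (G → ℂ)) : Set (G → ℂ) :=
  {f | f ∈ BG G ∧ ∀ a, IsCauchy a → (∀ h ∈ S, dual a h = 0) → dual a f = 0}

lemma Cl_closed (S : Set (G → ℂ)) : IsClosed[weakStar G] {f : BG G | f.1 ∈ Cl S} := by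
  letI := weakStar G
  have : {f : BG G | f.1 ∈ Cl S} = ⋂ a : {a : ℕ → G →₀ ℂ // IsCauchy a},
      ⋂ _ : ∀ h ∈ S, dual a.1 h = 0, (fun f : BG G => dual a.1 f.1) ⁻¹' {0} := by
    ext f
    simp [Cl]
  rw [this]
  exact isClosed_iInter fun a => isClosed_iInter fun _ => isClosed_singleton.preimage
    (continuous_iInf_dom (i := a) continuous_induced_dom)

def Adj (Φ : (G → ℂ) → G → ℂ) : Prop :=
  ∃ (Ψ : (G →₀ ℂ) →+ (G →₀ ℂ)) (C : ℝ), 0 ≤ C ∧ (∀ a f, pair a (Φ f) = pair (Ψ a) f) ∧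
    ∀ (ρ : URep G) ξ η, ∃ (σ : URep G) (ξ' η' : σ.V), Φ (coef ρ ξ η) = coef σ ξ' η' ∧
      ‖ξ'‖ * ‖η'‖ ≤ C * (‖ξ‖ * ‖η‖)

lemma Cl_map {Φ : (G → ℂ) → G → ℂ} (hΦ : Adj Φ) {S : Set (G → ℂ)} (hS : ∀ h ∈ S, Φ h ∈ Cl S)
    {f : G → ℂ} (hf : f ∈ Cl S) : Φ f ∈ Cl S := by
  obtain ⟨Ψ, C, hC, h1, h2⟩ := hΦ
  have hn : ∀ a, cnorm (Ψ a) ≤ C * cnorm a := by
    intro a
    have a0 := cnorm_nonneg a
    refine cnorm_le fun ρ => ContinuousLinearMap.opNorm_le_bound _ (by positivity) fun ξ => ?_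
    obtain ⟨σ, ξ', η', e, h⟩ := h2 ρ ξ (op ρ (Ψ a) ξ)
    have := pair_le a σ ξ' η'
    rw [← e, h1, pair_coef, inner_self_eq_norm_sq_to_K] at this
    simp only [Complex.coe_algebraMap, norm_pow, Complex.norm_real, norm_norm] at this
    have h3 := this.trans (mul_le_mul_of_nonneg_left h a0)
    rcases (norm_nonneg (op ρ (Ψ a) ξ)).eq_or_lt with h4 | h4
    · rw [← h4]; positivity
    · nlinarith
  refine ⟨?_, fun a ha h0 => ?_⟩
  · obtain ⟨ρ, ξ, η, rfl⟩ := hf.1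
    obtain ⟨σ, ξ', η', e, -⟩ := h2 ρ ξ η
    exact ⟨σ, ξ', η', e⟩
  · have e : ∀ h, dual a (Φ h) = dual (fun n => Ψ (a n)) h := fun h => by simp only [dual, h1]
    rw [e]
    refine hf.2 _ (fun ε hε => ?_) fun h hh => by rw [← e]; exact (hS h hh).2 a ha h0
    obtain ⟨N, hN⟩ := ha (ε / (C + 1)) (by positivity)
    refine ⟨N, fun m hm n hn' => ?_⟩
    have h3 := hN m hm n hn'
    rw [lt_div_iff₀ (by positivity)] at h3
    rw [← map_sub]
    linarith [hn (a m - a n), cnorm_nonneg (a m - a n)]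

lemma adj_mul {h : G → ℂ} (hh : h ∈ BG G) : Adj fun f => h * f := by
  obtain ⟨σ, x, y, rfl⟩ := hh
  refine ⟨DistribSMul.toAddMonoidHom _ (coef σ x y), ‖x‖ * ‖y‖, by positivity, fun a f => ?_,
    fun ρ ξ η => ?_⟩
  · show _ = pair (coef σ x y • a) f
    rw [pair, pair, Finsupp.sum_of_support_subset (coef σ x y • a) (s := a.support)
      (fun g hg => by simp at hg ⊢; exact hg.2) _ (by simp), Finsupp.sum]
    exact Finset.sum_congr rfl fun g _ => by simp; ring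
  · obtain ⟨τ, t, h1, h2, -, h4⟩ := tens σ ρ
    exact ⟨τ, t x ξ, t y η, by funext g; simp [coef, h1, h2], by rw [h4, h4]; exact le_of_eq (by ring)⟩

omit [Group G] in
lemma pair_map (e : G → G) (a : G →₀ ℂ) (f : G → ℂ) :
    pair a (fun x => f (e x)) = pair (Finsupp.mapDomain.addMonoidHom e a) f :=
  (Finsupp.sum_mapDomain_index (h := fun g c => c * f g) (by simp) fun _ _ _ => add_mul _ _ _).symm

lemma coef_left (ρ : URep G) (ξ η : ρ.V) (s : G) :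
    (fun x => coef ρ ξ η (s * x)) = coef ρ ξ (ρ.π s⁻¹ η) := by
  funext x; rw [coef, coef, π_mul, π_inner]

lemma coef_right (ρ : URep G) (ξ η : ρ.V) (s : G) :
    (fun x => coef ρ ξ η (x * s)) = coef ρ (ρ.π s ξ) η := by
  funext x; rw [coef, coef, π_mul]

lemma adj_left (s : G) : Adj fun f x => f (s * x) :=
  ⟨_, 1, zero_le_one, pair_map _, fun ρ ξ η => ⟨ρ, _, _, coef_left ρ ξ η s, by simp⟩⟩

lemma adj_right (s : G) : Adj fun f x => f (x * s) :=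
  ⟨_, 1, zero_le_one, pair_map _, fun ρ ξ η => ⟨ρ, _, _, coef_right ρ ξ η s, by simp⟩⟩

lemma sub_Cl {S : Set (G → ℂ)} (hS : S ⊆ BG G) : S ⊆ Cl S := fun _ hf => ⟨hS hf, fun _ _ h => h _ hf⟩

noncomputable def ClA (S : Set (G → ℂ)) (hS : S ⊆ BG G) (h1 : 1 ∈ S)
    (hm : ∀ f ∈ S, ∀ h ∈ S, f * h ∈ S) : Subalgebra ℂ (G → ℂ) :=
  Submodule.toSubalgebra
    { carrier := Cl S
      add_mem' := fun hf hh => ⟨BG_add hf.1 hh.1, fun a ha h0 => by
        rw [dual_add ha hf.1 hh.1, hf.2 a ha h0, hh.2 a ha h0, add_zero]⟩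
      zero_mem' := ⟨by simpa using BG_smul 0 (hS h1), fun a _ _ => by
        simp [dual, pair, tendsto_const_nhds.limUnder_eq]⟩
      smul_mem' := fun c f hf => ⟨BG_smul c hf.1, fun a ha h0 => by
        rw [dual_smul ha c hf.1, hf.2 a ha h0, mul_zero]⟩ }
    (sub_Cl hS h1) fun f h hf hh => Cl_map (adj_mul hf.1) (fun k hk => by
      rw [mul_comm]
      exact Cl_map (adj_mul (hS hk)) (fun j hj => sub_Cl hS (hm k hk j hj)) hf) hh

end Pool.Agent.H.MP_f0f681_an
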