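import Mathlib
import Pool.Agent.H.MP_f0f681_an.A

namespace Pool.Agent.H.MP_f0f681_an
open Filter Topology InnerProductSpace Polynomial

attribute [-instance] CStarModule.toInner

section
variable {E : Type} [NormedAddCommGroup E] [InnerProductSpace ℂ E] [CompleteSpace E]

noncomputable def F (t : ℝ) : ℝ := max (t - 11 / 20) 0

lemma F_cont : Continuous F := by unfold F; fun_prop

lemma spec {T : E →L[ℂ] E} (h1 : ‖T‖ ≤ 1) {t : ℝ} (ht : t ∈ spectrum ℝ T) : t ∈ Set.Icc (-1 : ℝ) 1 := by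
  rcases subsingleton_or_nontrivial E with h | h
  · simp at ht
  exact abs_le.1 ((spectrum.norm_le_norm_of_mem ht).trans h1)

lemma F_kill {T : E →L[ℂ] E} (hT : IsSelfAdjoint T) (h1 : ‖T‖ ≤ 1) {ξ : E} {C : ℝ}
    (h : ∀ k, ‖(T ^ k) ξ‖ ≤ C * (1 / 2) ^ k) : cfc F T ξ = 0 := by
  have key : ∀ k : ℕ, ‖cfc F T ξ‖ ≤ C * (10 / 11) ^ k := by
    intro k
    have hc : Continuous fun t : ℝ => F t / max t (11 / 20) ^ k :=
      F_cont.div (by fun_prop) fun t => (pow_pos (lt_max_of_lt_right (by norm_num)) _).ne'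
    have e : cfc F T = cfc (fun t : ℝ => F t / max t (11 / 20) ^ k) T * T ^ k := by
      rw [← cfc_pow_id (R := ℝ) T k, ← cfc_mul _ _ T hc.continuousOn]
      refine cfc_congr fun t _ => ?_
      rcases le_total t (11 / 20) with h | h
      · simp [F, h]
      · have : t ≠ 0 := by rintro rfl; norm_num at h
        simp [max_eq_left h, this]
    have n : ‖cfc (fun t : ℝ => F t / max t (11 / 20) ^ k) T‖ ≤ (20 / 11) ^ k := by
      refine norm_cfc_le (by positivity) fun t ht => ?_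
      have h2 := (spec h1 ht).2
      have h3 : 0 ≤ F t := le_max_right _ _
      rw [Real.norm_of_nonneg (by positivity)]
      calc F t / max t (11 / 20) ^ k ≤ 1 / (11 / 20) ^ k := by
            gcongr
            · exact max_le (by linarith) zero_le_one
            · exact le_max_right _ _
        _ = _ := by rw [← one_div_pow]; norm_num
    rw [e, mul_apply_eq_comp]
    calc _ ≤ (20 / 11) ^ k * (C * (1 / 2) ^ k) :=
          (ContinuousLinearMap.le_of_opNorm_le _ n _).trans (by gcongr; exact h k)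
      _ = _ := by rw [mul_left_comm, ← mul_pow]; norm_num
  have := ge_of_tendsto' ((tendsto_pow_atTop_nhds_zero_of_lt_one (by norm_num : (0 : ℝ) ≤ 10 / 11)
    (by norm_num)).const_mul C) key
  simpa using this

lemma F_pos {T : E →L[ℂ] E} (hT : IsSelfAdjoint T) {ξ : E} (h1 : ⟪ξ, ξ⟫_ℂ = 1)
    (h : ⟪ξ, T ξ⟫_ℂ = 3 / 5) : ⟪ξ, cfc F T ξ⟫_ℂ ≠ 0 := by
  have e : cfc (fun t : ℝ => F t - (t - 11 / 20)) T = cfc F T - (T - algebraMap ℝ _ (11 / 20)) := by
    have := F_cont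
    rw [cfc_sub .., cfc_sub .., cfc_id' .., cfc_const ..]
  have p : 0 ≤ cfc (fun t : ℝ => F t - (t - 11 / 20)) T :=
    cfc_nonneg fun t _ => sub_nonneg.2 (le_max_left _ _)
  rw [e] at p
  have := ((ContinuousLinearMap.nonneg_iff_isPositive _).1 p).re_inner_nonneg_right ξ
  intro h0
  simp only [_root_.sub_apply, inner_sub_right, h0, h, Algebra.algebraMap_eq_smul_one,
    _root_.smul_apply, one_apply_eq_self, ← Complex.coe_smul, inner_smul_right, h1] at this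
  norm_num at this
end

variable {G : Type} [Group G]

def Fam (A : ∀ ρ : URep G, ρ.V →L[ℂ] ρ.V) : Prop := ∃ a, ∀ ρ, op ρ a = A ρ

lemma op_add (ρ : URep G) (a b : G →₀ ℂ) : op ρ (a + b) = op ρ a + op ρ b :=
  Finsupp.sum_add_index' (by simp) fun _ _ _ => add_smul _ _ _

lemma op_sub (ρ : URep G) (a b : G →₀ ℂ) : op ρ (a - b) = op ρ a - op ρ b :=
  Finsupp.sum_sub_index fun _ _ _ => sub_smul _ _ _

lemma Fam.add {A B : ∀ ρ : URep G, ρ.V →L[ℂ] ρ.V} (h : Fam A) (h' : Fam B) :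
    Fam fun ρ => A ρ + B ρ := by
  obtain ⟨a, ha⟩ := h
  obtain ⟨b, hb⟩ := h'
  exact ⟨a + b, fun ρ => by rw [op_add, ha, hb]⟩

lemma Fam.smul {A : ∀ ρ : URep G, ρ.V →L[ℂ] ρ.V} (h : Fam A) (c : ℂ) : Fam fun ρ => c • A ρ := by
  obtain ⟨a, ha⟩ := h
  refine ⟨c • a, fun ρ => ?_⟩
  beta_reduce
  rw [← ha, op, op, Finsupp.sum_smul_index' (by simp), Finsupp.smul_sum]
  simp [mul_smul]

lemma Fam.left {A : ∀ ρ : URep G, ρ.V →L[ℂ] ρ.V} (h : Fam A) (s : G) : Fam fun ρ => L ρ s * A ρ := by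
  obtain ⟨a, ha⟩ := h
  refine ⟨a.mapDomain (s * ·), fun ρ => ?_⟩
  beta_reduce
  rw [← ha, op, op, Finsupp.sum_mapDomain_index (by simp) fun _ _ _ => add_smul _ _ _,
    Finsupp.mul_sum]
  refine Finsupp.sum_congr fun g _ => ?_
  ext v
  simp

lemma fam_one : Fam (G := G) fun _ => 1 :=
  ⟨Finsupp.single 1 1, fun ρ => by ext v; simp [op]⟩

lemma fam_zero : Fam (G := G) fun _ => 0 := ⟨0, fun ρ => by simp [op]⟩

variable {ι : Type} [Fintype ι] (s : ι → G)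

noncomputable def T (ρ : URep G) : ρ.V →L[ℂ] ρ.V := (Fintype.card ι : ℂ)⁻¹ • ∑ i, L ρ (s i)

lemma Fam.T {A : ∀ ρ : URep G, ρ.V →L[ℂ] ρ.V} (h : Fam A) : Fam fun ρ => T s ρ * A ρ := by
  have : ∀ I : Finset ι, Fam fun ρ => (∑ i ∈ I, L ρ (s i)) * A ρ := by
    classical
    intro I
    induction I using Finset.induction_on with
    | empty => simpa using fam_zero
    | insert i I hi ih => simpa [Finset.sum_insert hi, add_mul] using (h.left (s i)).add ih
  simpa [Pool.Agent.H.MP_f0f681_an.T] using (this Finset.univ).smul (Fintype.card ι : ℂ)⁻¹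

lemma Fam.poly {A : ∀ ρ : URep G, ρ.V →L[ℂ] ρ.V} (h : Fam A) (p : ℝ[X]) :
    Fam fun ρ => aeval (Pool.Agent.H.MP_f0f681_an.T s ρ) p * A ρ := by
  induction p using Polynomial.induction_on with
  | C r => simpa [Algebra.algebraMap_eq_smul_one] using h.smul r
  | add p q h1 h2 => simpa [add_mul] using h1.add h2
  | monomial n r h1 =>
    convert h1.T s using 2
    rw [pow_succ', mul_left_comm, map_mul, aeval_X, mul_assoc]

lemma T_norm (ρ : URep G) : ‖T s ρ‖ ≤ 1 := by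
  have : ‖∑ i, L ρ (s i)‖ ≤ Fintype.card ι := by
    refine (norm_sum_le_of_le (n := fun _ => 1) _ fun i _ =>
      LinearIsometry.norm_toContinuousLinearMap_le _).trans (by simp)
  rw [T, norm_smul, norm_inv, Complex.norm_natCast]
  exact inv_mul_le_one_of_le₀ this (Nat.cast_nonneg _)

lemma T_sa (e : ι ≃ ι) (he : ∀ i, s (e i) = (s i)⁻¹) (ρ : URep G) : IsSelfAdjoint (T s ρ) := by
  rw [ContinuousLinearMap.isSelfAdjoint_iff_isSymmetric]
  intro v w
  simp only [T, ContinuousLinearMap.coe_coe, _root_.smul_apply, _root_.sum_apply, L_apply,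
    inner_smul_left, inner_smul_right, sum_inner, inner_sum, π_inner, ← he]
  rw [e.sum_comp fun i => ⟪ρ.π (s i) v, w⟫_ℂ]
  simp

def Dec (ρ : URep G) (ξ : ρ.V) (v : G → ℝ) : Prop := ∃ C, 0 ≤ C ∧ ∀ g, ‖⟪ξ, ρ.π g ξ⟫_ℂ‖ ≤ C * v g

lemma Dec.kill [Nonempty ι] (e : ι ≃ ι) (he : ∀ i, s (e i) = (s i)⁻¹) {v : G → ℝ} (v1 : v 1 = 1)
    (hv : ∀ g, ∑ i, v (s i * g) ≤ Fintype.card ι / 2 * v g) {ρ : URep G} {ξ : ρ.V}
    (h : Dec ρ ξ v) : cfc F (T s ρ) ξ = 0 := by
  obtain ⟨C, C0, hC⟩ := h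
  have sa := T_sa s e he ρ
  have sy := ContinuousLinearMap.isSelfAdjoint_iff_isSymmetric.1 sa
  have hn : (0 : ℝ) < Fintype.card ι := by exact_mod_cast Fintype.card_pos
  have key : ∀ (k : ℕ) g, ‖⟪(T s ρ ^ k) ξ, ρ.π g ξ⟫_ℂ‖ ≤ C * (1 / 2) ^ k * v g := by
    intro k
    induction k with
    | zero => simpa using hC
    | succ k ih =>
      intro g
      rw [pow_succ', mul_apply_eq_comp, show ⟪T s ρ ((T s ρ ^ k) ξ), ρ.π g ξ⟫_ℂ = _ from sy _ _]
      obtain ⟨w, hw⟩ : ∃ w, w = (T s ρ ^ k) ξ := ⟨_, rfl⟩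
      rw [← hw] at ih ⊢
      simp only [T, ContinuousLinearMap.coe_coe, _root_.smul_apply, _root_.sum_apply, L_apply,
        inner_smul_right, inner_sum, ← π_mul, norm_mul, norm_inv, Complex.norm_natCast]
      rw [inv_mul_le_iff₀ hn]
      refine (norm_sum_le_of_le _ fun i _ => ih _).trans ?_
      rw [← Finset.mul_sum]
      calc _ ≤ C * (1 / 2) ^ k * (Fintype.card ι / 2 * v g) := by gcongr; exact hv g
        _ = _ := by ring
  refine F_kill sa (T_norm s ρ) (C := √C) fun k => le_of_sq_le_sq ?_ (by positivity)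
  have h1 := key (k + k) 1
  have sk := ContinuousLinearMap.isSelfAdjoint_iff_isSymmetric.1 (sa.pow k)
  rw [pow_add, mul_apply_eq_comp, map_one,
    show ⟪(T s ρ ^ k) ((T s ρ ^ k) ξ), (1 : ρ.V ≃ₗᵢ[ℂ] ρ.V) ξ⟫_ℂ = _ from sk _ _] at h1
  have h2 : ‖(T s ρ ^ k) ξ‖ ^ 2 = ‖⟪(T s ρ ^ k) ξ, (T s ρ ^ k) ξ⟫_ℂ‖ := by
    rw [inner_self_eq_norm_sq_to_K]; simp
  rw [h2, mul_pow, Real.sq_sqrt C0, sq, ← pow_add]
  rw [v1, mul_one] at h1
  exact h1

lemma exists_a (e : ι ≃ ι) (he : ∀ i, s (e i) = (s i)⁻¹) {A : ∀ ρ : URep G, ρ.V →L[ℂ] ρ.V}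
    (h : Fam A) (hA : ∀ ρ, ‖A ρ‖ ≤ 4) : ∃ a, IsCauchy a ∧ ∀ (ρ : URep G) ξ η,
      dual a (coef ρ ξ η) = ⟪η, cfc F (T s ρ) (A ρ ξ)⟫_ℂ := by
  choose p hp using fun n : ℕ => exists_polynomial_near_of_continuousOn (-1) 1 F F_cont.continuousOn
    (1 / (n + 1)) Nat.one_div_pos_of_nat
  choose a ha using fun n => h.poly s (p n)
  have key : ∀ n ρ, ‖op ρ (a n) - cfc F (T s ρ) * A ρ‖ ≤ 1 / (n + 1) * 4 := by
    intro n ρ
    have sa := T_sa s e he ρ
    have := F_cont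
    rw [ha, ← sub_mul, ← cfc_polynomial .., ← cfc_sub ..]
    refine (norm_mul_le _ _).trans (mul_le_mul ?_ (hA ρ) (norm_nonneg _) (by positivity))
    exact norm_cfc_le (by positivity) fun t ht => (hp n t (spec (T_norm s ρ) ht)).le
  have t0 : Tendsto (fun n : ℕ => (1 / (n + 1) : ℝ) * 4) atTop (𝓝 0) := by
    simpa using tendsto_one_div_add_atTop_nhds_zero_nat.mul_const (4 : ℝ)
  refine ⟨a, fun ε hε => ?_, fun ρ ξ η => Tendsto.limUnder_eq ?_⟩
  · obtain ⟨N, hN⟩ := eventually_atTop.1 (t0.eventually_lt_const (half_pos hε))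
    refine ⟨N, fun m hm n hn => lt_of_le_of_lt (cnorm_le (C := 1 / (m + 1) * 4 + 1 / (n + 1) * 4)
      fun ρ => ?_) (by linarith [hN m hm, hN n hn])⟩
    rw [op_sub]
    refine (norm_sub_le_norm_sub_add_norm_sub _ (cfc F (T s ρ) * A ρ) _).trans
      (add_le_add (key m ρ) ?_)
    rw [norm_sub_rev]; exact key n ρ
  · simp only [pair_coef]
    have h1 : Tendsto (fun n => op ρ (a n)) atTop (𝓝 (cfc F (T s ρ) * A ρ)) :=
      tendsto_iff_norm_sub_tendsto_zero.2 (squeeze_zero (fun _ => norm_nonneg _) (key · ρ) t0)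
    exact tendsto_const_nhds.inner (((ContinuousLinearMap.apply ℂ ρ.V ξ).continuous.tendsto _).comp h1)

end Pool.Agent.H.MP_f0f681_an
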