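import Mathlib
import Pool.Agent.H.MP_f0f681_an.B

namespace Pool.Agent.H.MP_f0f681_an
open Filter Topology InnerProductSpace FreeGroup

attribute [-instance] CStarModule.toInner

abbrev Fr := FreeGroup (Fin 10)
abbrev Lt := Fin 10 × Bool
noncomputable abbrev E := lp (fun _ : Fr => ℂ) 2

def iv (t : Lt) : Lt := (t.1, !t.2)

lemma iv_iv (t : Lt) : iv (iv t) = t := by simp [iv]

lemma mk_iv (t : Lt) : (mk [iv t] : Fr) = (mk [t])⁻¹ := by simp [inv_mk, invRev, iv]

lemma tw {t : Lt} {g : Fr} (h : g.toWord.head? ≠ some (iv t)) :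
    (mk [t] * g).toWord = t :: g.toWord := by
  rw [toWord_mul, toWord_mk, reduce_singleton, List.singleton_append, reduce.cons, reduce_toWord]
  cases hg : g.toWord with
  | nil => rfl
  | cons a l =>
    rw [hg] at h
    refine if_neg fun h' => h ?_
    simp [iv, h'.1, h'.2]

noncomputable def P (a : Fr) : E →ₗ[ℂ] E where
  toFun f := ⟨fun w => f (a⁻¹ * w), memℓp_gen
    ((Equiv.mulLeft a⁻¹).summable_iff.2 ((lp.memℓp f).summable (by simp)))⟩
  map_add' _ _ := rfl
  map_smul' _ _ := rfl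

lemma P_apply (a : Fr) (f : E) (w : Fr) : P a f w = f (a⁻¹ * w) := rfl

noncomputable def lam : URep Fr :=
  mkRep E P (fun v => by ext w; simp [P_apply]) (fun g h v => by ext w; simp [P_apply, mul_assoc])
    fun g v => by
      rw [lp.norm_eq_tsum_rpow (by simp), lp.norm_eq_tsum_rpow (by simp)]
      congr 1
      exact (Equiv.mulLeft g⁻¹).tsum_eq fun w => ‖v w‖ ^ (2 : ENNReal).toReal

noncomputable def lp' : Fr →* (E ≃ₗᵢ[ℂ] E) := lam.π

noncomputable def δ (a : Fr) : E := lp.single 2 a 1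

lemma inner_δ (a : Fr) (x : E) : ⟪δ a, x⟫_ℂ = x a := by simp [δ, lp.inner_single_left]

lemma δ_apply (a w : Fr) : δ a w = if w = a then 1 else 0 := by
  simp [δ, lp.single_apply, Pi.single_apply]

noncomputable def R (a : Fr) : E ≃ₗᵢ[ℂ] E := (ℂ ∙ (δ a - (3 : ℂ) • δ 1))ᗮ.reflection

lemma R_apply {a : Fr} (ha : a ≠ 1) (x : E) (w : Fr) :
    R a x w = x w - (x a - 3 * x 1) / 5 * (δ a w - 3 * δ 1 w) := by
  have h : ∀ y : E, ⟪δ a - (3 : ℂ) • δ 1, y⟫_ℂ = y a - 3 * y 1 := by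
    intro y; simp [inner_sub_left, inner_smul_left, inner_δ, map_ofNat]
  have h2 : ((‖δ a - (3 : ℂ) • δ 1‖ : ℂ)) ^ 2 = 10 := by
    have := h (δ a - (3 : ℂ) • δ 1)
    rw [inner_self_eq_norm_sq_to_K] at this
    refine this.trans ?_
    simp [δ_apply, ha, ha.symm]; norm_num
  rw [R, Submodule.reflection_orthogonal_apply, Submodule.reflection_singleton_apply, h]
  erw [h2]
  rw [two_nsmul]
  simp
  ring

noncomputable def sg : Fr →* (E ≃ₗᵢ[ℂ] E) :=
  FreeGroup.lift fun i => R (of i) * lp' (of i)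

lemma step (t : Lt) (x : E) : (∃ c, sg (mk [t]) x 1 = 3 / 5 * x 1 + c * x (mk [t])⁻¹) ∧
    ∀ w, w ≠ 1 → w ≠ mk [t] → sg (mk [t]) x w = x ((mk [t])⁻¹ * w) := by
  obtain ⟨i, b⟩ := t
  have ha : (of i : Fr) ≠ 1 := of_ne_one i
  cases b
  · have e : (mk [(i, false)] : Fr) = (of i)⁻¹ := mk_iv (i, true)
    have e2 : ∀ w, sg (of i)⁻¹ x w = R (of i) x (of i * w) := by
      intro w
      have : sg (of i)⁻¹ = lp' (of i)⁻¹ * R (of i) := by
        rw [_root_.map_inv, _root_.map_inv, sg, lift_apply_of, mul_inv_rev, R,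
          Submodule.reflection_inv]
      rw [this]
      exact (P_apply (of i)⁻¹ _ w).trans (by rw [inv_inv]; rfl)
    rw [e]
    refine ⟨⟨4 / 5, ?_⟩, fun w h1 h2 => ?_⟩
    · rw [e2, R_apply ha]; simp [δ_apply, ha]; ring
    · rw [e2, R_apply ha]
      have : of i * w ≠ 1 := fun h => h2 (eq_inv_of_mul_eq_one_right h)
      simp [δ_apply, h1, this]
  · have e2 : ∀ w, sg (of i) x w = R (of i) (P (of i) x) w := by
      intro w; rw [sg, lift_apply_of]; rfl
    change (∃ c, sg (of i) x 1 = 3 / 5 * x 1 + c * x (of i)⁻¹) ∧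
      ∀ w, w ≠ 1 → w ≠ of i → sg (of i) x w = x ((of i)⁻¹ * w)
    refine ⟨⟨-4 / 5, ?_⟩, fun w h1 h2 => ?_⟩
    · rw [e2, R_apply ha]; simp [δ_apply, ha.symm, P_apply]; ring
    · rw [e2, R_apply ha]; simp [δ_apply, h1, h2, P_apply]

lemma main (l : List Lt) (hl : IsReduced l) : sg (mk l) (δ 1) 1 = (3 / 5) ^ l.length ∧
    ∀ w : Fr, w ≠ 1 → w.toWord.head? ≠ l.head? → sg (mk l) (δ 1) w = 0 := by
  induction l with
  | nil =>
    rw [← one_eq_mk, _root_.map_one]
    exact ⟨by simp [δ_apply], fun w hw _ => by simp [δ_apply, hw]⟩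
  | cons t l ih =>
    obtain ⟨h1, h2⟩ := ih hl.tail
    have hh : some (iv t) ≠ l.head? := by
      intro h
      have := hl.rel_head? (y := iv t) (by simp [← h]) rfl
      simp [iv] at this
    have e : sg (mk (t :: l)) (δ 1) = sg (mk [t]) (sg (mk l) (δ 1)) := by
      rw [show mk (t :: l) = mk [t] * mk l from rfl, _root_.map_mul]; rfl
    obtain ⟨⟨c, h3⟩, h4⟩ := step t (sg (mk l) (δ 1))
    have key : ∀ w : Fr, w.toWord.head? ≠ some t → sg (mk l) (δ 1) ((mk [t])⁻¹ * w) = 0 := by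
      intro w hw
      have := tw (t := iv t) (g := w) (by rwa [iv_iv])
      rw [mk_iv] at this
      exact h2 _ (fun h => by rw [h] at this; simp at this) (by rw [this]; exact hh)
    rw [e]
    refine ⟨?_, fun w hw hw' => ?_⟩
    · have := key 1 (by simp)
      rw [mul_one] at this
      rw [h3, this, h1, List.length_cons, pow_succ']; simp
    · rw [h4 w hw (fun h => hw' (by simp [h])), key w hw']

lemma sg_coef (g : Fr) : ⟪δ 1, sg g (δ 1)⟫_ℂ = (3 / 5) ^ g.norm := by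
  have := (main g.toWord isReduced_toWord).1
  rwa [mk_toWord, ← inner_δ] at this

lemma avg (g : Fr) : ∑ t : Lt, ((3 / 5 : ℝ) ^ (mk [t] * g).norm) ^ 2 ≤ 10 * ((3 / 5) ^ g.norm) ^ 2 := by
  obtain ⟨t0, h0⟩ : ∃ t0 : Lt, ∀ t ≠ t0, (mk [t] * g).norm = g.norm + 1 := by
    refine ⟨iv (g.toWord.headD (0, true)), fun t ht => ?_⟩
    rw [FreeGroup.norm, tw fun h => ht ?_]
    · rfl
    · rw [List.headD_eq_head?_getD, h]; simp [iv_iv]
  obtain ⟨q, hq⟩ : ∃ q : ℝ, q = ((3 / 5) ^ g.norm) ^ 2 := ⟨_, rfl⟩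
  have q0 : 0 ≤ q := by rw [hq]; positivity
  calc _ ≤ ∑ t : Lt, (9 / 25 * q + if t = t0 then 25 / 9 * q else 0) := by
        refine Finset.sum_le_sum fun t _ => ?_
        split_ifs with h
        · have h1 := norm_mul_le (mk [t])⁻¹ (mk [t] * g)
          have h2 := norm_mk_le (L₁ := [t])
          rw [inv_mul_cancel_left, norm_inv_eq] at h1
          have h3 : (3 / 5 : ℝ) ^ ((mk [t] * g).norm + 1) ≤ (3 / 5) ^ g.norm :=
            pow_le_pow_of_le_one (by norm_num) (by norm_num) (by simp at h2; omega)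
          have h4 := pow_le_pow_left₀ (by positivity) h3 2
          rw [pow_succ (3 / 5 : ℝ), mul_pow, ← hq] at h4
          linarith
        · rw [h0 t h, pow_succ (3 / 5 : ℝ), mul_pow, ← hq]; linarith
    _ ≤ _ := by
        rw [← hq, Finset.sum_add_distrib]
        simp
        linarith

end Pool.Agent.H.MP_f0f681_an
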