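import Mathlib
import Pool.Agent.H.MP_f0f681_an.C

namespace Pool.Agent.H.MP_f0f681_an
open Filter Topology InnerProductSpace Complex

attribute [-instance] CStarModule.toInner

abbrev G := Fr × Multiplicative ℤ

def z : G := (1, Multiplicative.ofAdd 1)
def s (t : Lt) : G := (FreeGroup.mk [t], 1)
def e : Lt ≃ Lt := Function.Involutive.toPerm iv iv_iv
noncomputable def u (g : G) : ℝ := (3 / 5) ^ g.1.norm

lemma he (t : Lt) : s (e t) = (s t)⁻¹ := Prod.ext (mk_iv t) rfl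

lemma z_comm (g : G) : z * g = g * z := Prod.ext (by simp [z]) (mul_comm _ _)

lemma u_pos (g : G) : 0 < u g := by unfold u; positivity

lemma u_conj (a : G) : ∃ K, 0 ≤ K ∧ ∀ g, u (a⁻¹ * (g * a)) ≤ K * u g := by
  refine ⟨(5 / 3) ^ (2 * a.1.norm), by positivity, fun g => ?_⟩
  have h1 := FreeGroup.norm_mul_le a.1 (a.1⁻¹ * (g.1 * a.1))
  have h2 := FreeGroup.norm_mul_le (g.1 * a.1) a.1⁻¹
  rw [mul_inv_cancel_left] at h1
  rw [mul_inv_cancel_right, FreeGroup.norm_inv_eq] at h2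
  have h3 : (3 / 5 : ℝ) ^ (2 * a.1.norm + (a.1⁻¹ * (g.1 * a.1)).norm) ≤ (3 / 5) ^ g.1.norm :=
    pow_le_pow_of_le_one (by norm_num) (by norm_num) (by omega)
  calc u (a⁻¹ * (g * a)) = (5 / 3) ^ (2 * a.1.norm) *
        (3 / 5) ^ (2 * a.1.norm + (a.1⁻¹ * (g.1 * a.1)).norm) := by
        rw [pow_add, ← mul_assoc (_ : ℝ), ← mul_pow]; norm_num [u]
    _ ≤ _ := mul_le_mul_of_nonneg_left h3 (by positivity)

lemma Dec.tr {ρ : URep G} {ξ : ρ.V} {k : ℕ} (h : Dec ρ ξ fun g => u g ^ k) (a : G) :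
    Dec ρ (ρ.π a ξ) fun g => u g ^ k := by
  obtain ⟨C, C0, hC⟩ := h
  obtain ⟨K, K0, hK⟩ := u_conj a
  refine ⟨C * K ^ k, by positivity, fun g => ?_⟩
  have : ⟪ρ.π a ξ, ρ.π g (ρ.π a ξ)⟫_ℂ = ⟪ξ, ρ.π (a⁻¹ * (g * a)) ξ⟫_ℂ := by
    rw [π_mul, π_inner ρ a⁻¹, inv_inv, π_mul]
  rw [this, mul_assoc, ← mul_pow]
  exact (hC _).trans (mul_le_mul_of_nonneg_left (pow_le_pow_left₀ (u_pos _).le (hK g) k) C0)

lemma dec0 (ρ : URep G) (ξ : ρ.V) : Dec ρ ξ fun g => u g ^ 0 :=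
  ⟨‖ξ‖ * ‖ξ‖, by positivity, fun g => by simpa using norm_inner_le_norm ξ (ρ.π g ξ)⟩

def Vec (ρ : URep G) (ξ : ρ.V) : Prop :=
  ρ.π z ξ = (1 : ℂ) • ξ ∨ (ρ.π z ξ = I • ξ ∧ Dec ρ ξ fun g => u g ^ 1) ∨ Dec ρ ξ fun g => u g ^ 2

def S : Set (G → ℂ) := {f | ∃ ρ ξ η, Vec ρ ξ ∧ f = coef ρ ξ η}

lemma S_sub : S ⊆ BG G := fun _ ⟨ρ, ξ, η, _, h⟩ => ⟨ρ, ξ, η, h⟩

lemma S_one : 1 ∈ S := ⟨triv G, (1 : ℂ), (1 : ℂ), Or.inl rfl, one_eq⟩

lemma S_mul (f : G → ℂ) (hf : f ∈ S) (h : G → ℂ) (hh : h ∈ S) : f * h ∈ S := by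
  obtain ⟨ρ, ξ, η, h1, rfl⟩ := hf
  obtain ⟨σ, x, y, h2, rfl⟩ := hh
  obtain ⟨τ, t, t1, t2, t3, -⟩ := tens ρ σ
  refine ⟨τ, t ξ x, t η y, ?_, by funext g; simp [coef, t1, t2]⟩
  have d : ∀ {j k}, (Dec ρ ξ fun g => u g ^ j) → (Dec σ x fun g => u g ^ k) →
      Dec τ (t ξ x) fun g => u g ^ (j + k) := by
    rintro j k ⟨C, C0, hC⟩ ⟨D, D0, hD⟩
    refine ⟨C * D, by positivity, fun g => ?_⟩
    have := (u_pos g).le
    beta_reduce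
    rw [t1, t2, norm_mul, pow_add, mul_mul_mul_comm]
    exact mul_le_mul (hC g) (hD g) (norm_nonneg _) (by positivity)
  have zz : ∀ {a b : ℂ}, ρ.π z ξ = a • ξ → σ.π z x = b • x → τ.π z (t ξ x) = (a * b) • t ξ x := by
    intro a b ha hb; rw [t1, ha, hb, t3]
  rcases h1 with h1 | ⟨h1, d1⟩ | d1
  · rcases h2 with h2 | ⟨h2, d2⟩ | d2
    · exact Or.inl (by simpa using zz h1 h2)
    · exact Or.inr (Or.inl ⟨by simpa using zz h1 h2, d (dec0 ρ ξ) d2⟩)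
    · exact Or.inr (Or.inr (d (dec0 ρ ξ) d2))
  · rcases h2 with h2 | ⟨h2, d2⟩ | d2
    · exact Or.inr (Or.inl ⟨by simpa using zz h1 h2, d d1 (dec0 σ x)⟩)
    · exact Or.inr (Or.inr (d d1 d2))
    · exact Or.inr (Or.inr (d (dec0 ρ ξ) d2))
  · exact Or.inr (Or.inr (d d1 (dec0 σ x)))

lemma Vec.tr {ρ : URep G} {ξ : ρ.V} (h : Vec ρ ξ) (a : G) : Vec ρ (ρ.π a ξ) := by
  have zz : ∀ {c : ℂ}, ρ.π z ξ = c • ξ → ρ.π z (ρ.π a ξ) = c • ρ.π a ξ := by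
    intro c hc; rw [← π_mul, z_comm, π_mul, hc, map_smul]
  rcases h with h | ⟨h, d⟩ | d
  · exact Or.inl (zz h)
  · exact Or.inr (Or.inl ⟨zz h, d.tr a⟩)
  · exact Or.inr (Or.inr (d.tr a))

lemma inv {f : G → ℂ} (hf : f ∈ Cl S) (a : G) :
    (fun x => f (a * x)) ∈ Cl S ∧ (fun x => f (x * a)) ∈ Cl S := by
  refine ⟨Cl_map (adj_left a) ?_ hf, Cl_map (adj_right a) ?_ hf⟩ <;>
    rintro _ ⟨ρ, ξ, η, h, rfl⟩
  · exact sub_Cl S_sub ⟨ρ, ξ, _, h, coef_left ρ ξ η a⟩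
  · exact sub_Cl S_sub ⟨ρ, _, η, h.tr a, coef_right ρ ξ η a⟩

noncomputable def A (ρ : URep G) : ρ.V →L[ℂ] ρ.V :=
  L ρ z * (L ρ z * 1 + (-1 : ℂ) • 1) + (-I) • (L ρ z * 1 + (-1 : ℂ) • 1)

lemma fam_A : Fam A :=
  have h := (fam_one.left z).add (fam_one.smul (-1))
  (h.left z).add (h.smul (-I))

lemma A_norm (ρ : URep G) : ‖A ρ‖ ≤ 4 := by
  have h1 : ‖L ρ z‖ ≤ 1 := LinearIsometry.norm_toContinuousLinearMap_le _
  have h2 : ‖L ρ z * 1 + (-1 : ℂ) • (1 : ρ.V →L[ℂ] ρ.V)‖ ≤ 2 := by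
    refine (norm_add_le _ _).trans ?_
    have : ‖(1 : ρ.V →L[ℂ] ρ.V)‖ ≤ 1 := ContinuousLinearMap.norm_id_le
    rw [mul_one, norm_smul]; simp; linarith
  refine (norm_add_le _ _).trans ?_
  have := (norm_mul_le _ _).trans (mul_le_mul h1 h2 (norm_nonneg _) zero_le_one)
  rw [norm_smul, norm_neg, norm_I]
  linarith

lemma A_eig {ρ : URep G} {ξ : ρ.V} {c : ℂ} (h : ρ.π z ξ = c • ξ) :
    A ρ ξ = ((c - I) * (c - 1)) • ξ := by
  simp only [A, _root_.add_apply, mul_apply_eq_comp, _root_.smul_apply, one_apply_eq_self, L_apply,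
    map_add, map_smul, h]
  module

lemma kill {ρ : URep G} {ξ : ρ.V} (h : Vec ρ ξ) : cfc F (T s ρ) (A ρ ξ) = 0 := by
  rcases h with h | ⟨h, -⟩ | d
  · simp [A_eig h]
  · simp [A_eig h]
  · have k : ∀ {ξ : ρ.V}, (Dec ρ ξ fun g => u g ^ 2) → cfc F (T s ρ) ξ = 0 := fun d =>
      d.kill s e he (by simp [u]) fun g => (avg g.1).trans (by simp [u]; norm_num)
    simp only [A, _root_.add_apply, mul_apply_eq_comp, _root_.smul_apply, one_apply_eq_self,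
      L_apply, map_add, map_smul, k d, k (d.tr z), k ((d.tr z).tr z)]
    simp

lemma model {c : ℂ} (hc : ‖c‖ = 1) : ∃ (ρ : URep G) (ξ : ρ.V), ρ.π z ξ = c • ξ ∧
    ∀ g, ⟪ξ, ρ.π g ξ⟫_ℂ = u g * c ^ g.2.toAdd := by
  have c0 : c ≠ 0 := by rintro rfl; simp at hc
  let σ : URep G := { V := E, π := sg.comp (MonoidHom.fst _ _) }
  let χ : URep G := chr (fun g => c ^ g.2.toAdd) (by simp) (fun g h => by simp [zpow_add₀ c0])
    fun g => by simp [hc]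
  obtain ⟨τ, t, t1, t2, t3, -⟩ := tens σ χ
  have e1 : ∀ g, χ.π g (1 : ℂ) = (c ^ g.2.toAdd : ℂ) := fun g => mul_one (c ^ g.2.toAdd : ℂ)
  refine ⟨τ, t (δ 1) (1 : ℂ), ?_, fun g => ?_⟩
  · have := t3 1 c (δ 1) (1 : ℂ)
    rw [one_mul] at this
    rw [t1, ← this, e1]
    congr 1
    · show sg 1 (δ 1) = (1 : ℂ) • δ 1
      simp
    · show c ^ (1 : ℤ) = c * 1
      simp
  · rw [t1, t2, e1]
    congr 1
    · exact (sg_coef g.1).trans (by simp [u])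
    · show ⟪(1 : ℂ), c ^ g.2.toAdd⟫_ℂ = _
      simp

theorem final : ∃ f ∈ Cl S, star f ∉ Cl S := by
  obtain ⟨ρ, ξ, h1, h2⟩ := model norm_I
  obtain ⟨σ, x, h3, h4⟩ := model (c := -I) (by simp)
  refine ⟨coef ρ ξ ξ, sub_Cl S_sub ⟨ρ, ξ, ξ, Or.inr (Or.inl ⟨h1, 1, zero_le_one, fun g => ?_⟩), rfl⟩,
    fun h => ?_⟩
  · simp [h2, abs_of_pos (u_pos g)]
  · have e1 : star (coef ρ ξ ξ) = coef σ x x := by
      funext g
      simp [coef, h2, h4]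
    obtain ⟨a, ha, hd⟩ := exists_a s e he fam_A A_norm
    have := h.2 a ha (by rintro _ ⟨τ, y, η, hy, rfl⟩; rw [hd, kill hy, inner_zero_right])
    rw [e1, hd, A_eig h3, map_smul, inner_smul_right, mul_eq_zero] at this
    refine F_pos (T_sa s e he σ) (ξ := x) (by simpa [u] using h4 1) ?_ (this.resolve_left ?_)
    · have : ∀ t, ⟪x, σ.π (s t) x⟫_ℂ = 3 / 5 := by
        intro t
        rw [h4]
        simp [u, s, FreeGroup.norm]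
      simp [T, inner_smul_right, inner_sum, this]
    · simp [Complex.ext_iff]
      norm_num

end Pool.Agent.H.MP_f0f681_an
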